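import Pool.Agent.H343.QF.StQ

set_option autoImplicit false

/-! Part R6 of project QF : the system of the axes of the relator. -/

namespace Pool.Agent.H967.QF

open Pool.Agent.TH68 Pool.Agent.Helper97.Hyp Pool.Agent.H343.AN Pool.Agent.H343.QF

section ax

variable {Γ : Type} [Group Γ] (W : WNorm Γ) (ρ : Γ) (X : ℤ → Γ)

/-- the axis of a coset -/
def Ax (A : Γ ⧸ Subgroup.zpowers ρ) : Set (Pt W) :=
  {p | ∃ (x : Γ) (j : ℤ), (x : Γ ⧸ Subgroup.zpowers ρ) = A ∧ p = pt W (x * X j)}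

variable {W ρ X}

theorem Ax_mk {N : ℤ} (hX : ∀ j e : ℤ, X (j + e * N) = ρ ^ e * X j) (x : Γ) :
    Ax W ρ X (x : Γ ⧸ Subgroup.zpowers ρ) = {p | ∃ j : ℤ, p = pt W (x * X j)} := by
  ext p
  constructor
  · rintro ⟨y, j, hy, rfl⟩
    rw [QuotientGroup.eq] at hy
    obtain ⟨e, he⟩ := hy
    refine ⟨j + (-e) * N, ?_⟩
    have he' : ρ ^ e = y⁻¹ * x := he
    rw [hX, zpow_neg, he']
    congr 1
    group
  · rintro ⟨j, rfl⟩
    exact ⟨x, j, rfl, rfl⟩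

theorem Ax_smul {N : ℤ} (hX : ∀ j e : ℤ, X (j + e * N) = ρ ^ e * X j) (x : Γ) (y : Pt W) :
    y ∈ Ax W ρ X (x : Γ ⧸ Subgroup.zpowers ρ) ↔ x⁻¹ • y ∈ SX W X := by
  rw [Ax_mk hX]
  constructor
  · rintro ⟨j, rfl⟩
    refine ⟨j, ?_⟩
    simp only [smul_pt]
    congr 1
    group
  · rintro ⟨j, hj⟩
    refine ⟨j, ?_⟩
    have h1 : y = x • (pt W (X j)) := by
      have h2 : pt W (X j) = x⁻¹ • y := hj
      rw [h2, smul_inv_smul]
    rw [h1, smul_pt]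

theorem SX_ne : (SX W X).Nonempty := ⟨pt W (X 0), 0, rfl⟩

theorem mem_stab (x r : Γ) : r ∈ MulAction.stabilizer Γ (x : Γ ⧸ Subgroup.zpowers ρ) ↔
    ∃ e : ℤ, r = x * ρ ^ e * x⁻¹ := by
  rw [MulAction.mem_stabilizer_iff]
  have h1 : r • (x : Γ ⧸ Subgroup.zpowers ρ) = ((r * x : Γ) : Γ ⧸ Subgroup.zpowers ρ) := rfl
  rw [h1, QuotientGroup.eq]
  constructor
  · rintro ⟨e, he⟩
    have he' : ρ ^ e = (r * x)⁻¹ * x := he
    refine ⟨-e, ?_⟩
    rw [zpow_neg, he']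
    group
  · rintro ⟨e, rfl⟩
    refine ⟨-e, ?_⟩
    show ρ ^ (-e) = _
    group

theorem stab_le (A : Γ ⧸ Subgroup.zpowers ρ) :
    MulAction.stabilizer Γ A ≤ Subgroup.normalClosure {ρ} := by
  obtain ⟨x, rfl⟩ := QuotientGroup.mk_surjective A
  intro r hr
  obtain ⟨e, rfl⟩ := (mem_stab x r).1 hr
  have h1 : ρ ∈ Subgroup.normalClosure {ρ} := Subgroup.subset_normalClosure rfl
  exact (Subgroup.normalClosure_normal (s := ({ρ} : Set Γ))).conj_mem _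
    (Subgroup.zpow_mem _ h1 e) x

theorem le_sup : Subgroup.normalClosure {ρ} ≤
    ⨆ A : Γ ⧸ Subgroup.zpowers ρ, MulAction.stabilizer Γ A := by
  unfold Subgroup.normalClosure
  rw [Subgroup.closure_le]
  intro r hr
  rw [Group.mem_conjugatesOfSet_iff] at hr
  obtain ⟨s, hs, hr⟩ := hr
  rw [Set.mem_singleton_iff] at hs
  subst hs
  rw [isConj_iff] at hr
  obtain ⟨x, rfl⟩ := hr
  refine Subgroup.mem_iSup_of_mem (x : Γ ⧸ Subgroup.zpowers s) ?_
  rw [mem_stab]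
  exact ⟨1, by rw [zpow_one]⟩

theorem conj_stab (γ : Γ) (A : Γ ⧸ Subgroup.zpowers ρ) (r : Γ) (hr : r ∈ MulAction.stabilizer Γ A) :
    γ * r * γ⁻¹ ∈ MulAction.stabilizer Γ (γ • A) := by
  rw [MulAction.mem_stabilizer_iff] at hr ⊢
  rw [smul_smul, inv_mul_cancel_right, mul_smul, hr]

theorem fin_ax {N : ℤ} (hN : 0 < N) (hX : ∀ j e : ℤ, X (j + e * N) = ρ ^ e * X j) (x : Pt W) :
    {A | x ∈ Ax W ρ X A}.Finite := by
  have h1 : (Set.Ico (0 : ℤ) N).Finite := Set.finite_Ico 0 N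
  refine (h1.image fun j => ((x.out * (X j)⁻¹ : Γ) : Γ ⧸ Subgroup.zpowers ρ)).subset ?_
  rintro A ⟨y, j, rfl, hy⟩
  refine ⟨j % N, ⟨Int.emod_nonneg j hN.ne', Int.emod_lt_of_pos j hN⟩, ?_⟩
  have h2 : x.out = y * X j := by rw [hy, out_pt]
  have h3 : X j = ρ ^ (j / N) * X (j % N) := by
    rw [← hX, mul_comm, Int.emod_add_mul_ediv]
  show ((x.out * (X (j % N))⁻¹ : Γ) : Γ ⧸ Subgroup.zpowers ρ) = _
  rw [QuotientGroup.eq, h2, h3]
  refine ⟨-(j / N), ?_⟩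
  show ρ ^ (-(j / N)) = _
  group

end ax

theorem isProj_mono {X : Type*} [PseudoMetricSpace X] {c c' : ℝ} (h : c ≤ c') {S : Set X} {p q : X}
    (hp : IsProj c S p q) : IsProj c' S p q :=
  ⟨hp.1, fun s hs => (hp.2 s hs).trans (by linarith)⟩

/-- the system of the axes -/
def sys (hG : ToolG) (h1 : S_rcor) (h2 : S_rsmall) {Γ : Type} [Group Γ] {W : WNorm Γ} {a b : Γ}
    {δ D R : ℝ} {n E l0 κ : ℕ} {g : Γ} (h : HypR W a b δ D R n E l0 κ g) (θ : ℝ)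
    (hθ : 400 * (LL n E : ℝ) ≤ θ) (hθδ : δ ≤ θ) :
    Sys Γ W (Γ ⧸ Subgroup.zpowers (rho a b n E l0 κ g)) where
  δ := δ
  θ := θ
  hyp := h.good.hyp
  hδ := h.good.one
  hθ := hθδ
  S := Ax W (rho a b n E l0 κ g) (Xr a b n E l0 κ g)
  Sne A := by
    obtain ⟨x, rfl⟩ := QuotientGroup.mk_surjective A
    exact ⟨_, x, 0, rfl, rfl⟩
  smul_mem γ A p hp := by
    obtain ⟨x, j, rfl, rfl⟩ := hp
    exact ⟨γ * x, j, rfl, by rw [smul_pt, mul_assoc]⟩
  proj A p := by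
    obtain ⟨x, rfl⟩ := QuotientGroup.mk_surjective A
    have hX := (h1 h).2
    obtain ⟨q, hq⟩ := hG.cproj (h1 h).1 (x⁻¹ • p)
    refine ⟨x • q, ?_⟩
    have h3 := IsProj.smul (γ := x)
      (T := Ax W (rho a b n E l0 κ g) (Xr a b n E l0 κ g) (x : Γ ⧸ Subgroup.zpowers _))
      (Ax_smul hX x) hq
    rw [smul_inv_smul] at h3
    refine isProj_mono ?_ h3
    have : (0 : ℝ) ≤ LL n E := Nat.cast_nonneg _
    linarith
  small A B hAB p hp q hq := by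
    obtain ⟨x, rfl⟩ := QuotientGroup.mk_surjective A
    obtain ⟨y, rfl⟩ := QuotientGroup.mk_surjective B
    have hX := (h1 h).2
    rw [Ax_mk hX] at hp hq
    obtain ⟨i, rfl⟩ := hp
    obtain ⟨k, rfl⟩ := hq
    have hxy : x⁻¹ * y ∉ Subgroup.zpowers (rho a b n E l0 κ g) := fun hc =>
      hAB (QuotientGroup.eq.2 hc)
    have h3 := h2 h (x⁻¹ * y) hxy i k
    have h4 := pd_smul (γ := x) SX_ne (Ax_smul hX x)
      (pt W (x⁻¹ * y * Xr a b n E l0 κ g i)) (pt W (x⁻¹ * y * Xr a b n E l0 κ g k))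
    rw [smul_pt, smul_pt] at h4
    have h5 : ∀ j, x * (x⁻¹ * y * Xr a b n E l0 κ g j) = y * Xr a b n E l0 κ g j := fun j => by
      group
    rw [h5, h5] at h4
    rw [h4]
    linarith

/-- the system of the axes of the relator -/
theorem sp : ToolG → S_rcor → S_rsmall → S_rdist → S_windgen → S_sp := by
  intro hG h1 h2 h3 h4 Γ _ W a b δ D R n E l0 κ g h
  have hX := (h1 h).2
  obtain ⟨d1, d2, d3, d4⟩ := h3 h
  have hn : (10 : ℝ) ^ 13 ≤ n := by exact_mod_cast h.bd.hn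
  have hLL : (LL n E : ℝ) = 3 * (n + 1) * E := by
    unfold LL
    push_cast
    ring
  have hδ1 := h.good.one
  have hδD := h.good.le
  have hR := h.bd.hR
  have hE := h.bd.hE
  have hn1 : (1 : ℝ) ≤ n := by linarith
  have hE1 : D ≤ E := by nlinarith
  have hE0 : (0 : ℝ) < E := by linarith
  have hLE : (E : ℝ) ≤ LL n E := by
    rw [hLL]
    nlinarith
  have hL0 : (0 : ℝ) ≤ LL n E := by linarith
  -- `LL` is small compared with `P0`
  have hLP : (10 : ℝ) ^ 11 * LL n E ≤ P0 n E l0 - LL n E := by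
    have e1 : ((10 : ℝ) ^ 11 + 1) * LL n E ≤ (n : ℝ) ^ 2 * E / 2 := by
      rw [hLL]
      have e2 : ((10 : ℝ) ^ 11 + 1) * (3 * (n + 1)) ≤ (n : ℝ) ^ 2 / 2 := by nlinarith
      nlinarith
    linarith
  have hθ : 400 * (LL n E : ℝ) ≤ 10 ^ 5 * LL n E := by linarith
  have hθ' : 400 * (LL n E : ℝ) ≤ 10 ^ 4 * LL n E := by linarith
  have hθδ : δ ≤ 10 ^ 5 * LL n E := by linarith
  have hθδ' : δ ≤ 10 ^ 4 * LL n E := by linarith
  have far : ∀ A : Γ ⧸ Subgroup.zpowers (rho a b n E l0 κ g), ∀ r ∈ MulAction.stabilizer Γ A,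
      r ≠ 1 → ∀ q ∈ Ax W (rho a b n E l0 κ g) (Xr a b n E l0 κ g) A,
      (P0 n E l0 : ℝ) - LL n E ≤ dist q (r • q) := by
    intro A r hr hr1 q hq
    obtain ⟨x, rfl⟩ := QuotientGroup.mk_surjective A
    obtain ⟨e, rfl⟩ := (mem_stab x r).1 hr
    rw [Ax_mk hX] at hq
    obtain ⟨j, rfl⟩ := hq
    have he : e ≠ 0 := by
      rintro rfl
      apply hr1
      group
    have h5 := d1 e j he
    rw [← dist_smul x, smul_pt, smul_pt] at h5
    rw [smul_pt]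
    have h6 : x * rho a b n E l0 κ g ^ e * x⁻¹ * (x * Xr a b n E l0 κ g j) =
        x * (rho a b n E l0 κ g ^ e * Xr a b n E l0 κ g j) := by group
    rw [h6]
    exact h5
  refine ⟨sys hG h1 h2 h (10 ^ 5 * LL n E) hθ hθδ, rfl, rfl, fun x => Ax_mk hX x, ?_⟩
  refine ⟨{ ρ := (P0 n E l0 : ℝ) - LL n E
            N := Subgroup.normalClosure {rho a b n E l0 κ g}
            normal := inferInstance
            G := fun A => MulAction.stabilizer Γ A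
            G_le := stab_le
            fix := fun A r hr => hr
            far := far
            cob := ?_
            wind := ?_ }, rfl, rfl, ?_⟩
  · intro A p hp q hq
    obtain ⟨x, rfl⟩ := QuotientGroup.mk_surjective A
    change p ∈ Ax W _ _ _ at hp
    change q ∈ Ax W _ _ _ at hq
    rw [Ax_mk hX] at hp hq
    obtain ⟨i, rfl⟩ := hp
    obtain ⟨k, rfl⟩ := hq
    obtain ⟨e, he⟩ := d2 i k
    refine ⟨x * rho a b n E l0 κ g ^ e * x⁻¹, (mem_stab x _).2 ⟨e, rfl⟩, ?_⟩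
    rw [← dist_smul x, smul_pt, smul_pt] at he
    rw [smul_pt]
    have h6 : x * rho a b n E l0 κ g ^ e * x⁻¹ * (x * Xr a b n E l0 κ g k) =
        x * (rho a b n E l0 κ g ^ e * Xr a b n E l0 κ g k) := by group
    rw [h6]
    change _ ≤ ((P0 n E l0 : ℝ) - LL n E) / 2 + 10 ^ 5 * LL n E
    linarith
  · intro m hm hm1 x
    obtain ⟨A, r, hr, hr1, hpd⟩ := h4 (sys hG h1 h2 h (10 ^ 4 * LL n E) hθ' hθδ')
      (fun A => MulAction.stabilizer Γ A) ((P0 n E l0 : ℝ) - LL n E) (fun A r hr => hr)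
      conj_stab far (by
        change (10 : ℝ) ^ 4 * (10 ^ 4 * LL n E) ≤ (P0 n E l0 : ℝ) - LL n E
        linarith)
      (fun x => fin_ax (by positivity) hX x) m (le_sup hm) hm1 x
    refine ⟨A, r, hr, hr1, hpd.trans ?_⟩
    change (420 : ℝ) * (10 ^ 4 * LL n E) ≤ 50 * (10 ^ 5 * LL n E)
    linarith
  · change (10 : ℝ) ^ 6 * (10 ^ 5 * LL n E) ≤ (P0 n E l0 : ℝ) - LL n E
    linarith

end Pool.Agent.H967.QF
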