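import Pool.Agent.H343.QF.StG

set_option autoImplicit false

/-! Part G11 of project QF : big lines are lines of blocks. -/

namespace Pool.Agent.H967.QF

open Pool.Agent.TH68 Pool.Agent.Helper97.Hyp Pool.Agent.H343.AN Pool.Agent.H343.QF

/-- first crossing of a level -/
theorem cross {f : ℕ → ℝ} {N : ℕ} {c U : ℝ} (h0 : f 0 < c) (hN : c ≤ f N)
    (hU : ∀ n, n < N → f (n + 1) ≤ f n + U) :
    ∃ n ≤ N, c ≤ f n ∧ f n ≤ c + U ∧ ∀ m < n, f m < c := by
  classical
  have hex : ∃ n, c ≤ f n := ⟨N, hN⟩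
  have h1 := Nat.find_spec hex
  have h2 : ∀ m < Nat.find hex, f m < c := fun m hm => not_le.1 (Nat.find_min hex hm)
  have h3 : Nat.find hex ≤ N := Nat.find_min' hex hN
  refine ⟨Nat.find hex, h3, h1, ?_, h2⟩
  rcases Nat.eq_zero_or_pos (Nat.find hex) with h4 | h4
  · rw [h4] at h1
    exact absurd h1 (not_le.2 h0)
  · obtain ⟨m, hm⟩ := Nat.exists_eq_succ_of_ne_zero h4.ne'
    have h5 := h2 m (by omega)
    have h6 := hU m (by omega)
    rw [hm]
    linarith

theorem Ln_nonempty {Γ : Type} [Group Γ] (W : WNorm Γ) (a v : Γ) : (Ln W a v).Nonempty :=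
  ⟨pt W (v * a ^ (0 : ℤ)), 0, rfl⟩

/-- big lines are lines of blocks -/
theorem m2 : S_lnproj → S_malpair → S_cor1 → S_cor2 → S_m2 := by
  intro hln hmal hc1 hc2 Γ _ W a b δ D R X lam s E Λ hyp v i k hik hE
  by_contra hno
  push Not at hno
  have hL := Ln_nonempty W a v
  have hδ1 := hyp.good.one
  have hδD := hyp.good.le
  have hR := hyp.hR
  have hEE := hyp.hE
  have hG := hyp.good.hyp
  obtain ⟨c1, -, -⟩ := hc1 hyp
  set L := Ln W a v with hLdef
  set U := D + R with hUdef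
  -- steps
  have hstep : ∀ j, i ≤ j → j < k → pd L (pt W (X j)) (pt W (X (j + 1))) ≤ U := by
    intro j hij hjk
    have h1 := hmal hyp.good (X j) v (hno j hij hjk) 0 (lam j : ℤ)
    rw [zpow_zero, mul_one] at h1
    have h2 : dist (pt W (X j * a ^ (lam j : ℤ))) (pt W (X (j + 1))) ≤ R := by
      rw [dist_def, out_pt, out_pt, hyp.cor.step j]
      have : (X j * a ^ (lam j : ℤ))⁻¹ * (X j * a ^ lam j * s j) = s j := by
        rw [zpow_natCast]
        group
      rw [this]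
      exact hyp.cor.short j
    have h3 := pd_le_dist hL (pt W (X j * a ^ (lam j : ℤ))) (pt W (X (j + 1)))
    have h4 := pd_tri hL (pt W (X j)) (pt W (X j * a ^ (lam j : ℤ))) (pt W (X (j + 1)))
    linarith
  obtain ⟨N, hN⟩ : ∃ N : ℕ, k = i + N := ⟨(k - i).toNat, by omega⟩
  set f : ℕ → ℝ := fun n => pd L (pt W (X i)) (pt W (X (i + n))) with hf
  have hf0 : f 0 = 0 := by
    simp only [hf, Nat.cast_zero, add_zero]
    exact pd_self hL _
  have hfN : (E : ℝ) / 2 ≤ f N := by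
    simp only [hf]
    rw [← hN]
    exact hE
  have hfs : ∀ n, n < N → f (n + 1) ≤ f n + U := by
    intro n hn
    have h1 := hstep (i + n) (by omega) (by omega)
    have h2 := pd_tri hL (pt W (X i)) (pt W (X (i + n))) (pt W (X (i + n + 1)))
    simp only [hf]
    push_cast
    rw [← add_assoc]
    linarith
  have hU3 : 3 ≤ U := by rw [hUdef]; linarith
  have hE0 : (10 : ℝ) ^ 6 * 3 ≤ E := by nlinarith
  obtain ⟨n₁, hn₁, a1, a2, a3⟩ := cross (f := f) (N := N) (c := (E : ℝ) / 8) (U := U)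
    (by rw [hf0]; linarith) (by linarith) hfs
  obtain ⟨n₂, hn₂, b1, b2, b3⟩ := cross (f := f) (N := N) (c := (E : ℝ) / 4) (U := U)
    (by rw [hf0]; linarith) (by linarith) hfs
  have h12 : n₁ < n₂ := by
    rcases lt_trichotomy n₁ n₂ with h | h | h
    · exact h
    · exfalso
      rw [h] at a2
      linarith
    · exfalso
      have := a3 n₂ h
      linarith
  -- the points are close to the line
  have close : ∀ n, n ≤ N → (E : ℝ) / 8 ≤ f n → f n ≤ (E : ℝ) / 4 + U → ∀ q,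
      IsProj (6 * δ) L (pt W (X (i + n))) q → dist (pt W (X (i + n))) q ≤ 73 * U := by
    intro n hn h1 h2 q hq
    obtain ⟨p, hp⟩ := hln hyp.good v (pt W (X i))
    obtain ⟨r, hr⟩ := hln hyp.good v (pt W (X k))
    have t1 := pd_tri hL (pt W (X i)) (pt W (X (i + n))) (pt W (X k))
    have t2 : f n = pd L (pt W (X i)) (pt W (X (i + n))) := rfl
    have t3 := far_of_pd hG hp hq (by rw [← t2]; linarith)
    have t4 := far_of_pd hG hq hr (by linarith)
    have t5 := dist_le_of_proj hp hr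
    have t6 := c1 i (i + n) k 0 (by omega) (by omega)
    rw [zpow_zero, mul_one] at t6
    unfold exc at t6
    rw [dist_comm (pt W (X k)) r] at *
    linarith
  obtain ⟨q₁, hq₁⟩ := hln hyp.good v (pt W (X (i + n₁)))
  obtain ⟨q₂, hq₂⟩ := hln hyp.good v (pt W (X (i + n₂)))
  have d1 := close n₁ hn₁ a1 (by linarith) q₁ hq₁
  have d2 := close n₂ hn₂ (by linarith) b2 q₂ hq₂
  have d3 := dist_le_of_proj hq₁ hq₂
  have d4 := pd_tri hL (pt W (X (i + n₁))) (pt W (X i)) (pt W (X (i + n₂)))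
  have d5 := pd_symm hL (pt W (X (i + n₁))) (pt W (X i))
  have d6 : f n₁ = pd L (pt W (X i)) (pt W (X (i + n₁))) := rfl
  have d7 : f n₂ = pd L (pt W (X i)) (pt W (X (i + n₂))) := rfl
  obtain ⟨e1, -⟩ := hc2 hyp (i + n₁) (i + n₂) (by omega)
  have e2 : ((n₂ : ℝ) - n₁) * E ≤ ∑ j ∈ Finset.Ico (i + (n₁ : ℤ)) (i + n₂), (lam j : ℝ) := by
    have h1 : ∑ j ∈ Finset.Ico (i + (n₁ : ℤ)) (i + n₂), (E : ℝ) ≤
        ∑ j ∈ Finset.Ico (i + (n₁ : ℤ)) (i + n₂), (lam j : ℝ) :=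
      Finset.sum_le_sum fun j _ => by exact_mod_cast hyp.cor.lo j
    rw [Finset.sum_const, nsmul_eq_mul, Int.card_Ico] at h1
    have h2 : ((i + (n₂ : ℤ) - (i + n₁)).toNat : ℝ) = (n₂ : ℝ) - n₁ := by
      have h3 : (i + (n₂ : ℤ) - (i + n₁)).toNat = n₂ - n₁ := by omega
      rw [h3, Nat.cast_sub h12.le]
    rw [h2] at h1
    exact h1
  have e3 : (1 : ℝ) ≤ (n₂ : ℝ) - n₁ := by
    have : (n₁ : ℝ) + 1 ≤ n₂ := by exact_mod_cast h12
    linarith
  have e4 : ((i + (n₂ : ℤ) : ℤ) : ℝ) - ((i + (n₁ : ℤ) : ℤ) : ℝ) = (n₂ : ℝ) - n₁ := by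
    push_cast
    ring
  rw [e4] at e1
  have e5 : (E : ℝ) - 200 * U ≤ ((n₂ : ℝ) - n₁) * E - ((n₂ : ℝ) - n₁) * (200 * U) := by
    nlinarith
  linarith

end Pool.Agent.H967.QF
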